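import Pool.Agent.P.MP_cc10d1_gt.Free

/-! A strand walks under some strands and over the others and returns over all of them. -/

set_option autoImplicit false

open Quandles List

namespace Pool.Agent.P.MP_cc10d1_gt

variable {X : Type*} [Quandle X]

/-- The change of the colour `a` under a strand of colour `y`, to the right or to the left. -/
def op (u : Bool) (y a : X) : X := if u then y ◃ a else y ◃⁻¹ a

theorem cross_dir {P : Type*} [DecidableEq P] {a b p q : P} (hab : a ≠ b) {u : Bool}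
    (h : if u then p = a ∧ q = b else p = b ∧ q = a) (x : P → X) :
    cross a b u x q = op u (x q) (x p) ∧ cross a b (!u) x q = x p ∧ cross a b u x p = x q ∧
      ∀ z s, z ≠ p → z ≠ q → cross a b s x z = x z := by
  cases u
  · obtain ⟨rfl, rfl⟩ := h
    exact ⟨cross_left _ _ _ _, cross_left _ _ _ _, cross_right hab _ _,
      fun z s h1 h2 => cross_ne h2 h1 _ _⟩
  · obtain ⟨rfl, rfl⟩ := h
    exact ⟨cross_right hab _ _, cross_right hab _ _, cross_left _ _ _ _,
      fun z s h1 h2 => cross_ne h1 h2 _ _⟩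

theorem wrap_mem_PN {I : Type*} (i : I) (s u : Bool) {p : FreeGroup I}
    (hp : p ∈ PN FreeGroup.of) :
    FreeGroup.mk [(i, s)] * p * FreeGroup.mk [(i, u)] ∈ PN FreeGroup.of := by
  have h1 : FreeGroup.mk [(i, s)] * FreeGroup.mk [(i, u)] ∈ PN FreeGroup.of := by
    have h2 := sq_mem_PN FreeGroup.of i
    cases s <;> cases u <;> simp only [← of_eq, ← of_inv_eq]
    · rw [← mul_inv_rev, ← pow_two]; exact inv_mem h2
    · rw [inv_mul_cancel]; exact one_mem _
    · rw [mul_inv_cancel]; exact one_mem _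
    · rw [← pow_two]; exact h2
  have := mul_mem (Subgroup.Normal.conj_mem inferInstance p hp (FreeGroup.mk [(i, s)])) h1
  simpa only [mul_assoc, inv_mul_cancel_left] using this

theorem journey {I : Type*} {m : ℕ} (ι : I → Fin m) (u : Bool) (pos : ℕ → Fin (m + 1)) (r : ℕ)
    (q0 : Fin (m + 1))
    (H : ∀ k, k < r → ∃ i, if u then pos k = (ι i).castSucc ∧ pos (k + 1) = (ι i).succ
      else pos k = (ι i).succ ∧ pos (k + 1) = (ι i).castSucc)
    (hinj : ∀ j k, j < k → k ≤ r → pos k ≠ pos j) (hq : ∀ k, k ≤ r → q0 ≠ pos k)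
    {ys zs : List X} (hs : ys <+ zs) :
    ∀ (k : ℕ) (x : Fin (m + 1) → X), k + zs.length ≤ r →
      (∀ j z, zs[j]? = some z → x (pos (k + 1 + j)) = z) →
      ∃ p ∈ PN FreeGroup.of, fa ι p x (pos k) = ys.foldl (fun a y => op u y a) (x (pos k)) ∧
        fa ι p x q0 = x q0 := by
  have step : ∀ (z : X) (ys zs : List X) (s : Bool),
      (∀ (k : ℕ) (x : Fin (m + 1) → X), k + zs.length ≤ r →
        (∀ j z, zs[j]? = some z → x (pos (k + 1 + j)) = z) →
        ∃ p ∈ PN FreeGroup.of, fa ι p x (pos k) = ys.foldl (fun a y => op u y a) (x (pos k)) ∧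
          fa ι p x q0 = x q0) →
      ∀ (k : ℕ) (x : Fin (m + 1) → X), k + (z :: zs).length ≤ r →
        (∀ j z', (z :: zs)[j]? = some z' → x (pos (k + 1 + j)) = z') →
        ∃ p ∈ PN FreeGroup.of, fa ι p x (pos k) = ys.foldl (fun a y => op u y a)
          (if s = u then op u z (x (pos k)) else x (pos k)) ∧ fa ι p x q0 = x q0 := by
    intro z ys zs s ih k x hk hz
    rw [List.length_cons] at hk
    obtain ⟨i, hi⟩ := H k (by omega)
    have hd := fun y : Fin (m + 1) → X => cross_dir (Fin.castSucc_lt_succ (i := ι i)).ne hi y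
    obtain ⟨p, hp, e1, e2⟩ := ih (k + 1) (cross (ι i).castSucc (ι i).succ s x) (by omega)
      (fun j z' hj => by
        have hj' : j < zs.length := (List.getElem?_eq_some_iff.1 hj).1
        rw [(hd x).2.2.2 _ _ (hinj _ _ (by omega) (by omega)) (hinj _ _ (by omega) (by omega)),
          show k + 1 + 1 + j = k + 1 + (j + 1) by omega]
        exact hz (j + 1) z' hj)
    refine ⟨_, wrap_mem_PN i s u hp, ?_, ?_⟩
    · rw [fa_mul, fa_mul, fa_letter, fa_letter, (hd _).2.2.1, e1]
      congr 1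
      split_ifs with h
      · rw [h, (hd x).1, hz 0 z rfl]
      · rw [show s = !u from Bool.eq_not_of_ne h, (hd x).2.1]
    · rw [fa_mul, fa_mul, fa_letter, fa_letter,
        (hd _).2.2.2 _ _ (hq _ (by omega)) (hq _ (by omega)), e2,
        (hd _).2.2.2 _ _ (hq _ (by omega)) (hq _ (by omega))]
  induction hs with
  | slnil => exact fun k x _ _ => ⟨1, one_mem _, rfl, rfl⟩
  | cons z _ ih => simpa using step z _ _ (!u) ih
  | cons_cons z _ ih => simpa using step z _ _ u ih

theorem exists_word [Finite X] {Y : Set X} (hY : ConnSub Y) (u : Bool) {a b : X} (ha : a ∈ Y)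
    (hb : b ∈ Y) : ∃ ys : List X, (∀ y ∈ ys, y ∈ Y) ∧ ys.foldl (fun a y => op u y a) a = b := by
  obtain ⟨g, hg, rfl⟩ := hY.2 a ha b hb
  have key : ∀ (φ : X → Equiv.Perm X), (∀ y a, φ y a = op u y a) →
      ∀ g ∈ Subgroup.closure (φ '' Y), ∀ a,
        ∃ ys : List X, (∀ y ∈ ys, y ∈ Y) ∧ ys.foldl (fun a y => op u y a) a = g a := by
    intro φ hφ g hg
    have hg' : g ∈ Submonoid.closure (φ '' Y) := by
      rw [← Subgroup.closure_toSubmonoid_of_finite]; exact hg
    clear hg
    induction hg' using Submonoid.closure_induction with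
    | mem g hg =>
      obtain ⟨y, hy, rfl⟩ := hg
      exact fun a => ⟨[y], by simpa using hy, (hφ y a).symm⟩
    | one => exact fun a => ⟨[], by simp, rfl⟩
    | mul g h _ _ ihg ihh =>
      intro a
      obtain ⟨l1, h1, e1⟩ := ihh a
      obtain ⟨l2, h2, e2⟩ := ihg (h a)
      exact ⟨l1 ++ l2, fun y hy => (List.mem_append.1 hy).elim (h1 y) (h2 y), by
        rw [List.foldl_append, e1, e2]; rfl⟩
  cases u
  · refine key (fun y => (Rack.act' y : Equiv.Perm X)⁻¹) (fun _ _ => rfl) g ?_ a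
    rw [← Subgroup.closure_inv, ← Set.image_inv_eq_inv, Set.image_image]
    simpa using hg
  · exact key (fun y => (Rack.act' y : Equiv.Perm X)) (fun _ _ => rfl) g hg a

theorem exists_pool [Finite X] {Y : Set X} (hY : ConnSub Y) (u : Bool) :
    ∃ B : List X, (∀ y ∈ B, y ∈ Y) ∧
      ∀ a ∈ Y, ∀ b ∈ Y, ∃ ys, ys <+ B ∧ ys.foldl (fun a y => op u y a) a = b := by
  classical
  have := Fintype.ofFinite (Y × Y)
  choose W h1 h2 using fun c : Y × Y => exists_word hY u c.1.2 c.2.2
  refine ⟨((Finset.univ : Finset (Y × Y)).toList.map W).flatten, fun y hy => ?_,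
    fun a ha b hb => ⟨W (⟨a, ha⟩, ⟨b, hb⟩), List.sublist_flatten_of_mem (by simp),
      h2 (⟨a, ha⟩, ⟨b, hb⟩)⟩⟩
  obtain ⟨l, hl, hy⟩ := List.mem_flatten.1 hy
  obtain ⟨c, _, rfl⟩ := List.mem_map.1 hl
  exact h1 c y hy

/-- For every nonempty list `C` of colours of a connected subquandle there is a longer list `T`
in which any two neighbours can be given the same colour by a pure braid. -/
theorem exists_tuple [Finite X] {Y : Set X} (hY : ConnSub Y) {C : List X} (hC : C ≠ [])
    (hCY : ∀ y ∈ C, y ∈ Y) : ∃ B1 B2 : List X, (∀ y ∈ B2 ++ C ++ B1, y ∈ Y) ∧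
      ∀ (n N m : ℕ) (ι : Fin N → Fin m) (x : Fin (m + 1) → X),
        N + 1 = (B2 ++ C ++ B1).length → n + N ≤ m → (∀ i, (ι i).1 = n + i.1) →
        (∀ (q : Fin (m + 1)) j z, q.1 = n + j → (B2 ++ C ++ B1)[j]? = some z → x q = z) →
        ∀ i, ∃ p ∈ PN FreeGroup.of, fa ι p x (ι i).castSucc = fa ι p x (ι i).succ := by
  obtain ⟨B1, hB1, k1⟩ := exists_pool hY true
  obtain ⟨B2, hB2, k2⟩ := exists_pool hY false
  have hT : ∀ y ∈ B2.reverse ++ C ++ B1, y ∈ Y := fun y hy => by
    simp only [List.mem_append, List.mem_reverse] at hy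
    rcases hy with (hy | hy) | hy
    exacts [hB2 y hy, hCY y hy, hB1 y hy]
  refine ⟨B1, B2.reverse, hT, fun n N m ι x hN hm hι hx i => ?_⟩
  have hC' : 0 < C.length := List.length_pos_iff.2 hC
  obtain ⟨T, hTe⟩ : ∃ T, T = B2.reverse ++ C ++ B1 := ⟨_, rfl⟩
  rw [← hTe] at hT hN hx
  have hi := i.2
  have ha : x (ι i).castSucc ∈ Y := by
    rw [hx _ i.1 (T[i.1]'(by omega)) (hι i) (List.getElem?_eq_getElem _)]
    exact hT _ (List.getElem_mem _)
  have hb : x (ι i).succ ∈ Y := by
    rw [hx _ (i.1 + 1) (T[i.1 + 1]'(by omega)) (congrArg (· + 1) (hι i))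
      (List.getElem?_eq_getElem _)]
    exact hT _ (List.getElem_mem _)
  by_cases hc : i.1 < B2.length
  · obtain ⟨ys, hys, e⟩ := k1 _ hb _ ha
    have hs : B1 <+ T.drop (i.1 + 2) := by
      refine List.Sublist.trans ?_
        (List.drop_sublist_drop_left T (j := (B2.reverse ++ C).length) (by simp; omega))
      rw [hTe, List.drop_left]
    have e0 : (ι i).succ = ⟨min (n + i.1 + 1 + 0) m, by omega⟩ :=
      Fin.ext (by simp [hι]; omega)
    obtain ⟨p, hp, e1, e2⟩ := journey ι true (fun k => ⟨min (n + i.1 + 1 + k) m, by omega⟩)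
      (N - 1 - i.1) (ι i).castSucc
      (fun k hk => ⟨⟨i.1 + 1 + k, by omega⟩, by simp [Fin.ext_iff, hι]; omega⟩)
      (fun j k h1 h2 => by simp [Fin.ext_iff]; omega)
      (fun k hk => by simp [Fin.ext_iff, hι]; omega) (hys.trans hs) 0 x
      (by simp; omega) (fun j z hj => by
        have hj' := (List.getElem?_eq_some_iff.1 hj).1
        rw [List.length_drop] at hj'
        rw [List.getElem?_drop] at hj
        exact hx _ _ z (by simp; omega) hj)
    refine ⟨p, hp, ?_⟩
    rw [← e0, e] at e1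
    rw [e1, e2]
  · obtain ⟨ys, hys, e⟩ := k2 _ ha _ hb
    have hs : B2 <+ (T.take i.1).reverse := by
      rw [← List.reverse_sublist, List.reverse_reverse]
      refine List.Sublist.trans ?_ (List.take_sublist_take_left (l := T) (i := B2.reverse.length)
        (by simp; omega))
      rw [hTe, List.append_assoc, List.take_left]
    have e0 : (ι i).castSucc = ⟨n + i.1 - 0, by omega⟩ := Fin.ext (by simp [hι])
    obtain ⟨p, hp, e1, e2⟩ := journey ι false (fun k => ⟨n + i.1 - k, by omega⟩)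
      i.1 (ι i).succ
      (fun k hk => ⟨⟨i.1 - k - 1, by omega⟩, by simp [Fin.ext_iff, hι]; omega⟩)
      (fun j k h1 h2 => by simp [Fin.ext_iff]; omega)
      (fun k hk => by simp [Fin.ext_iff, hι]; omega) (hys.trans hs) 0 x
      (by simp) (fun j z hj => by
        have hj' := (List.getElem?_eq_some_iff.1 hj).1
        rw [List.length_reverse] at hj'
        rw [List.getElem?_reverse hj', List.getElem?_take_of_lt (by simp at hj' ⊢; omega)] at hj
        exact hx _ _ z (by simp at hj' ⊢; omega) hj)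
    refine ⟨p, hp, ?_⟩
    rw [← e0, e] at e1
    rw [e1, e2]

end Pool.Agent.P.MP_cc10d1_gt
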