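import Pool.Agent.P.MP_cc10d1_gt.Stab
import Pool.Agent.P.MP_cc10d1_gt.Journey

/-! The steps of the criterion. -/

set_option autoImplicit false

open Quandles

namespace Pool.Agent.P.MP_cc10d1_gt

variable {X : Type*} [Quandle X]

theorem act_const {n : ℕ} {x : Fin (n + 1) → X} (h : ∀ i : Fin n, x i.castSucc = x i.succ)
    (w : Word n) : act w x = x := by
  induction w with
  | nil => rfl
  | cons c w ih => rw [act_cons, cross_fix _ (h _), ih]

/-- A knot with the same invariant and more colourings. -/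
theorem more_col [Finite X] {Y : Set X} (hY : ConnSub Y) {y0 y1 : X} (h0 : y0 ∈ Y) (h1 : y1 ∈ Y)
    (hne : y0 ≠ y1) {A : Type*} [AddCommGroup A] {v : Knot → A} {d : ℕ} (hv : HasOrder v d)
    (K : Knot) : ∃ K', v K' = v K ∧ hcol X K < hcol X K' := by
  induction K using Knot.ind with
  | h n b hb =>
  obtain ⟨B1, B2, -, H⟩ := exists_tuple hY (C := [y0, y1]) (by simp) (by simp [h0, h1])
  obtain ⟨N, hN⟩ : ∃ N, N = B2.length + 1 + B1.length := ⟨_, rfl⟩
  obtain ⟨t, hk, e⟩ := exists_tail hb N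
  let x : Fin (n + N + 1) → X := fun q => (B2 ++ [y0, y1] ++ B1).getD (q.1 - n) y0
  have hx : ∀ (q : Fin (n + N + 1)) j z, q.1 = n + j → (B2 ++ [y0, y1] ++ B1)[j]? = some z →
      x q = z := fun q j z hq hj => by
    simp only [x, hq, Nat.add_sub_cancel_left, List.getD_eq_getElem?_getD, hj, Option.getD_some]
  obtain ⟨l, hl, c, hc, e'⟩ := exists_fix (Fin.natAdd n)
    (H n N (n + N) (Fin.natAdd n) x (by simp; omega) le_rfl (fun _ => rfl) hx) d t
  have hp := (same_of_gam (A := A) (Fin.natAdd n) hc e' (wd (Fin.castAdd N) b))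
  have hk' := (isKnot_congr hp.1).1 hk
  refine ⟨Knot.mk _ hk', ?_, ?_⟩
  · rw [← val_mk v hk', ← hp.2 v hv, val_mk v hk, e]
  · have hfix : ∀ z : Fin (n + N + 1) → X,
        act b (z ∘ Fin.castLE (by omega)) = z ∘ Fin.castLE (by omega) →
        act (wd (Fin.natAdd n) l) z = z →
        act (wd (Fin.castAdd N) b ++ wd (Fin.natAdd n) l) z = z := fun z k1 k2 => by
      rw [act_append, act_wd_fix (ι := Fin.castAdd N) (Fin.castLE_injective _) (fun _ => rfl)
        (fun _ => rfl) k1, k2]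
    have hex : ∀ y : Fin (n + 1) → X, (fun q : Fin (n + N + 1) => y ⟨min q.1 n, by omega⟩) ∘
        Fin.castLE (by omega : n + 1 ≤ n + N + 1) = y := fun y => by
      funext j
      exact congrArg y (Fin.ext (by simp; omega))
    let j : {y : Fin (n + 1) → X // act b y = y} →
        {z : Fin (n + N + 1) → X // act (wd (Fin.castAdd N) b ++ wd (Fin.natAdd n) l) z = z} :=
      fun y => ⟨fun q => y.1 ⟨min q.1 n, by omega⟩, hfix _ (by rw [hex, y.2])
        (act_wd_const (ι := Fin.natAdd n) (fun i => congrArg y.1 (Fin.ext (by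
          simp only [Fin.val_castSucc, Fin.val_succ, Fin.val_natAdd]; omega))) _)⟩
    have hj : Function.Injective j := fun y y' h => Subtype.ext (by
      rw [← hex y.1, ← hex y'.1]
      exact congrArg (· ∘ Fin.castLE (by omega)) (congrArg Subtype.val h))
    have hxf : act (wd (Fin.castAdd N) b ++ wd (Fin.natAdd n) l) x = x :=
      hfix x (act_const (fun i => by
        simp only [x, Function.comp, Fin.val_castLE, Fin.val_castSucc, Fin.val_succ]
        rw [show i.1 - n = 0 by omega, show i.1 + 1 - n = 0 by omega]) b) hl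
    have hns : (⟨x, hxf⟩ : {z // act _ z = z}) ∉ Set.range j := by
      rintro ⟨y, hy⟩
      have k0 := congrFun (congrArg Subtype.val hy) ⟨n + B2.length, by omega⟩
      have k1 := congrFun (congrArg Subtype.val hy) ⟨n + (B2.length + 1), by omega⟩
      rw [show (⟨x, hxf⟩ : {z // act _ z = z}).1 = x from rfl] at k0 k1
      rw [hx _ B2.length y0 rfl (by simp)] at k0
      rw [hx _ (B2.length + 1) y1 rfl (by simp)] at k1
      refine hne (k0.symm.trans (Eq.trans ?_ k1))
      exact congrArg y.1 (Fin.ext (by simp))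
    simp only [hcol_mk, col]
    have := Fintype.ofFinite X
    classical
    rw [Nat.card_eq_fintype_card, Nat.card_eq_fintype_card]
    exact Fintype.card_lt_of_injective_of_notMem j hj hns

theorem unbounded [Finite X] {Y : Set X} (hY : ConnSub Y) (hs : ¬ Y.Subsingleton)
    {A : Type*} [AddCommGroup A] {v : Knot → A} (hv : Vassiliev v) (K0 : Knot) (M : ℕ) :
    ∃ K, v K = v K0 ∧ M ≤ hcol X K := by
  obtain ⟨y0, h0, y1, h1, hne⟩ := Set.not_subsingleton_iff.1 hs
  obtain ⟨d, hd⟩ := hv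
  induction M with
  | zero => exact ⟨K0, rfl, Nat.zero_le _⟩
  | succ M ih =>
    obtain ⟨K, e, h⟩ := ih
    obtain ⟨K', e', h'⟩ := more_col hY h0 h1 hne hd K
    exact ⟨K', e'.trans e, by omega⟩

/-! ### Colourings take values in a connected subquandle -/

theorem act'_op {G : Subgroup (Equiv.Perm X)} {a b : X} (ha : (Rack.act' a : Equiv.Perm X) ∈ G)
    (hb : (Rack.act' b : Equiv.Perm X) ∈ G) :
    (Rack.act' (a ◃ b) : Equiv.Perm X) ∈ G ∧ (Rack.act' (a ◃⁻¹ b) : Equiv.Perm X) ∈ G := by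
  constructor
  · rw [Rack.ad_conj]
    exact mul_mem (mul_mem ha hb) (inv_mem ha)
  · have h := Rack.ad_conj a (a ◃⁻¹ b)
    rw [Rack.act_invAct_eq] at h
    have e : (Rack.act' (a ◃⁻¹ b) : Equiv.Perm X) = (Rack.act' a)⁻¹ * Rack.act' b * Rack.act' a := by
      rw [h]; group
    rw [e]
    exact mul_mem (mul_mem (inv_mem ha) hb) ha

theorem act_orbit {G : Subgroup (Equiv.Perm X)} {n : ℕ} (w : Word n) (x : Fin (n + 1) → X)
    (hx : ∀ j, (Rack.act' (x j) : Equiv.Perm X) ∈ G) (j : Fin (n + 1)) :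
    ∃ g ∈ G, g (act w x j) = x (perm w j) := by
  induction w generalizing x with
  | nil => exact ⟨1, one_mem _, rfl⟩
  | cons c w ih =>
    have hne : c.1.castSucc ≠ c.1.succ := (Fin.castSucc_lt_succ (i := c.1)).ne
    have key : ∀ q, (Rack.act' (cross c.1.castSucc c.1.succ c.2 x q) : Equiv.Perm X) ∈ G ∧
        ∃ g ∈ G, g (cross c.1.castSucc c.1.succ c.2 x q) =
          x (Equiv.swap c.1.castSucc c.1.succ q) := by
      intro q
      by_cases h1 : q = c.1.castSucc
      · rw [h1, cross_left, Equiv.swap_apply_left]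
        split_ifs
        · exact ⟨hx _, 1, one_mem _, rfl⟩
        · exact ⟨(act'_op (hx _) (hx _)).2, _, hx c.1.castSucc, Rack.act_invAct_eq _ _⟩
      · by_cases h2 : q = c.1.succ
        · rw [h2, cross_right hne, Equiv.swap_apply_right]
          split_ifs
          · exact ⟨(act'_op (hx _) (hx _)).1, _, inv_mem (hx c.1.succ), Rack.invAct_act_eq _ _⟩
          · exact ⟨hx _, 1, one_mem _, rfl⟩
        · rw [cross_ne h1 h2, Equiv.swap_apply_of_ne_of_ne h1 h2]
          exact ⟨hx _, 1, one_mem _, rfl⟩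
    obtain ⟨g, hg, e⟩ := ih _ fun q => (key q).1
    obtain ⟨g', hg', e'⟩ := (key (perm w j)).2
    refine ⟨g' * g, mul_mem hg' hg, ?_⟩
    rw [act_cons, perm_cons, Equiv.Perm.mul_apply, e, e', Equiv.Perm.mul_apply]

theorem exists_connSub {n : ℕ} {w : Word n} (hw : IsKnot w) {x : Fin (n + 1) → X}
    (hx : act w x = x) : ∃ Y : Set X, ConnSub Y ∧ ∀ j, x j ∈ Y := by
  let G := Subgroup.closure (Set.range fun j => (Rack.act' (x j) : Equiv.Perm X))
  have hG : ∀ j, (Rack.act' (x j) : Equiv.Perm X) ∈ G := fun j =>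
    Subgroup.subset_closure ⟨j, rfl⟩
  have h1 : ∀ j, ∃ g ∈ G, g (x 0) = x j := by
    refine hw.induction (φ := fun j => ∃ g ∈ G, g (x 0) = x j) (a := 0) ?_ ⟨1, one_mem _, rfl⟩
    rintro j ⟨g, hg, e⟩
    obtain ⟨g', hg', e'⟩ := act_orbit w x hG j
    exact ⟨g' * g, mul_mem hg' hg, by rw [Equiv.Perm.mul_apply, e, ← e', hx]⟩
  refine ⟨{a | (Rack.act' a : Equiv.Perm X) ∈ G ∧ ∃ g ∈ G, g (x 0) = a}, ⟨?_, ?_⟩,
    fun j => ⟨hG j, h1 j⟩⟩
  · rintro a ⟨ha, -⟩ b ⟨hb, g, hg, rfl⟩
    exact ⟨⟨(act'_op ha hb).1, _, mul_mem ha hg, rfl⟩,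
      ⟨(act'_op ha hb).2, _, mul_mem (inv_mem ha) hg, rfl⟩⟩
  · rintro a ⟨-, g, hg, rfl⟩ b ⟨-, g', hg', rfl⟩
    refine ⟨g' * g⁻¹, Subgroup.closure_mono ?_ (mul_mem hg' (inv_mem hg)), by simp⟩
    rintro _ ⟨j, rfl⟩
    exact ⟨x j, ⟨hG j, h1 j⟩, rfl⟩

theorem col_of_const {n : ℕ} {w : Word n}
    (h : ∀ x : Fin (n + 1) → X, act w x = x → ∀ j, x j = x 0) : col X w = Nat.card X :=
  Nat.card_congr ⟨fun x => x.1 0, fun a => ⟨fun _ => a, act_const (fun _ => rfl) w⟩,
    fun x => Subtype.ext (funext fun j => (h x.1 x.2 j).symm), fun _ => rfl⟩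

theorem hcol_const (h : ∀ Y : Set X, ConnSub Y → Y.Subsingleton) (K : Knot) :
    hcol X K = Nat.card X := by
  induction K using Knot.ind with
  | h n b hb =>
  refine col_of_const fun x hx j => ?_
  obtain ⟨Y, hY, hj⟩ := exists_connSub hb hx
  exact h Y hY (hj j) (hj 0)

/-! ### Constant invariants -/

theorem ext_of_perm {A : Type*} [AddCommGroup A] {n : ℕ} (w : SWord n)
    (hw : 0 < (w.filter fun c => c.2 = none).length) :
    ∀ f : Word n → A, (∀ u u', perm u = perm u' → f u = f u') → ext f w = 0 := by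
  induction w with
  | nil => simp at hw
  | cons c w ih =>
    intro f hf
    obtain ⟨i, _ | s⟩ := c
    · have : (fun u => f ((i, true) :: u)) = fun u => f ((i, false) :: u) :=
        funext fun u => hf _ _ (by simp only [perm_cons])
      simp only [ext, this, sub_self]
    · exact ih (by simpa using hw) _ fun u u' e => hf _ _ (by simp only [perm_cons, e])

theorem hasOrder_const {A : Type*} [AddCommGroup A] {v : Knot → A} {c : A} (h : ∀ K, v K = c)
    (d : ℕ) : HasOrder v d := fun n w hw =>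
  ext_of_perm w (by omega) _ fun u u' e => by
    by_cases hu : IsKnot u
    · rw [val_mk v hu, val_mk v ((isKnot_congr e).1 hu), h, h]
    · rw [val_not v hu, val_not v fun k => hu ((isKnot_congr e).2 k)]

/-- The trivial knot. -/
def unknot : Knot := Knot.mk ([] : Word 0) fun a b => by
  rw [Subsingleton.elim (α := Fin 1) a b]

end Pool.Agent.P.MP_cc10d1_gt
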