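import Mathlib

/-! Knots as closed braids, quandle colourings, finite type invariants. -/

set_option autoImplicit false

open Quandles

namespace Pool.Agent.P.MP_cc10d1_gt

/-! ### Knots -/

/-- A braid word on the `n + 1` strands `0, …, n`, oriented downwards and read from the top.
The letter `(i, true)` is a positive, `(i, false)` a negative crossing of the strands at the
positions `i` and `i + 1`. -/
abbrev Word (n : ℕ) : Type := List (Fin n × Bool)

/-- The permutation of the positions given by a braid word. -/
def perm {n : ℕ} (w : Word n) : Equiv.Perm (Fin (n + 1)) :=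
  (w.map fun c => Equiv.swap c.1.castSucc c.1.succ).prod

/-- The closure of the braid has one component. -/
def IsKnot {n : ℕ} (w : Word n) : Prop := ∀ a b, (perm w).SameCycle a b

/-- The relations of the braid groups, conjugation and the stabilisation move of Markov. -/
inductive Move : (Σ n, Word n) → (Σ n, Word n) → Prop
  | cancel (n : ℕ) (u w : Word n) (i : Fin n) (s : Bool) :
      Move ⟨n, u ++ (i, s) :: (i, !s) :: w⟩ ⟨n, u ++ w⟩
  | far (n : ℕ) (u w : Word n) (i j : Fin n) (s t : Bool) (h : i.1 + 1 < j.1) :
      Move ⟨n, u ++ (i, s) :: (j, t) :: w⟩ ⟨n, u ++ (j, t) :: (i, s) :: w⟩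
  | braid (n : ℕ) (u w : Word n) (i j : Fin n) (h : i.1 + 1 = j.1) :
      Move ⟨n, u ++ (i, true) :: (j, true) :: (i, true) :: w⟩
        ⟨n, u ++ (j, true) :: (i, true) :: (j, true) :: w⟩
  | conj (n : ℕ) (u w : Word n) : Move ⟨n, u ++ w⟩ ⟨n, w ++ u⟩
  | stab (n : ℕ) (w : Word n) (s : Bool) :
      Move ⟨n, w⟩ ⟨n + 1, w.map (fun c => (c.1.castSucc, c.2)) ++ [(Fin.last n, s)]⟩

/-- Oriented knots: closed braids with one component up to the moves. -/
def Knot : Type := Quot fun a b : {b : Σ n, Word n // IsKnot b.2} => Move a.1 b.1

/-- The closure of a braid word with one component. -/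
def Knot.mk {n : ℕ} (w : Word n) (h : IsKnot w) : Knot := Quot.mk _ ⟨⟨n, w⟩, h⟩

/-! ### Finite type invariants -/

/-- A singular braid word: the letter `(i, none)` is a double point. -/
abbrev SWord (n : ℕ) : Type := List (Fin n × Option Bool)

/-- The value of a knot invariant on the closure of a braid word. It is set to `0` when the closure
is not a knot; all resolutions of a singular word have the same permutation. -/
noncomputable def val {A : Type*} [AddCommGroup A] (v : Knot → A) (n : ℕ) (w : Word n) : A :=
  open Classical in if h : IsKnot w then v (Knot.mk w h) else 0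

/-- The extension to singular words by the rule `f (double point) = f (+) - f (-)`. -/
def ext {A : Type*} [AddCommGroup A] {n : ℕ} (f : Word n → A) : SWord n → A
  | [] => f []
  | (i, some s) :: w => ext (fun u => f ((i, s) :: u)) w
  | (i, none) :: w => ext (fun u => f ((i, true) :: u)) w - ext (fun u => f ((i, false) :: u)) w

/-- The extension of `v` vanishes on the singular knots with `d + 1` double points. -/
def HasOrder {A : Type*} [AddCommGroup A] (v : Knot → A) (d : ℕ) : Prop :=
  ∀ (n : ℕ) (w : SWord n), (w.filter fun c => c.2 = none).length = d + 1 → ext (val v n) w = 0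

/-- Vassiliev invariants. -/
def Vassiliev {A : Type*} [AddCommGroup A] (v : Knot → A) : Prop := ∃ d, HasOrder v d

/-! ### Colourings -/

/-- The colours below a crossing of the strands at the positions `a` (left) and `b` (right).
The product `x * y` of the problem is `y ◃ x`. At a positive crossing the strand coming from `b`
is the upper one, at a negative crossing the strand coming from `a`. -/
def cross {P X : Type*} [DecidableEq P] [Quandle X] (a b : P) (s : Bool) (x : P → X) : P → X :=
  fun q => if q = a then (if s then x b else x a ◃⁻¹ x b)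
    else if q = b then (if s then x b ◃ x a else x a) else x q

/-- The colours at the bottom of a braid from the colours at the top. -/
def act {X : Type*} [Quandle X] {n : ℕ} (w : Word n) (x : Fin (n + 1) → X) : Fin (n + 1) → X :=
  w.foldl (fun y c => cross c.1.castSucc c.1.succ c.2 y) x

/-- The number of colourings of the closed braid diagram. -/
noncomputable def col (X : Type*) [Quandle X] {n : ℕ} (w : Word n) : ℕ :=
  Nat.card {x : Fin (n + 1) → X // act w x = x}

/-- `Y` is a subquandle of `X` on which the group generated by the maps `y ◃ ·`, `y ∈ Y`, acts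
transitively. -/
def ConnSub {X : Type*} [Quandle X] (Y : Set X) : Prop :=
  (∀ a ∈ Y, ∀ b ∈ Y, a ◃ b ∈ Y ∧ a ◃⁻¹ b ∈ Y) ∧
    ∀ a ∈ Y, ∀ b ∈ Y, ∃ g ∈ Subgroup.closure ((fun y => (Rack.act' y : Equiv.Perm X)) '' Y), g a = b

/-! ### Invariance of the number of colourings -/

section inv
variable {P X : Type*} [DecidableEq P] [Quandle X]

theorem cross_left (a b : P) (s : Bool) (x : P → X) :
    cross a b s x a = if s then x b else x a ◃⁻¹ x b := if_pos rfl
theorem cross_right {a b : P} (h : a ≠ b) (s : Bool) (x : P → X) :
    cross a b s x b = if s then x b ◃ x a else x a := by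
  simp only [cross, if_neg h.symm, if_true]
theorem cross_ne {a b q : P} (ha : q ≠ a) (hb : q ≠ b) (s : Bool) (x : P → X) :
    cross a b s x q = x q := by
  simp only [cross, if_neg ha, if_neg hb]

theorem cross_cancel {a b : P} (h : a ≠ b) (s : Bool) (x : P → X) :
    cross a b (!s) (cross a b s x) = x := by
  funext q
  by_cases ha : q = a
  · subst ha
    cases s <;> simp [cross_left, cross_right h]
  · by_cases hb : q = b
    · subst hb
      cases s <;> simp [cross_left, cross_right h]
    · rw [cross_ne ha hb, cross_ne ha hb]

theorem cross_far {a b c d : P} (hac : a ≠ c) (had : a ≠ d) (hbc : b ≠ c) (hbd : b ≠ d)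
    (s t : Bool) (x : P → X) : cross c d t (cross a b s x) = cross a b s (cross c d t x) := by
  funext q
  simp only [cross, if_neg hac, if_neg had, if_neg hbc, if_neg hbd, if_neg hac.symm,
    if_neg had.symm, if_neg hbc.symm, if_neg hbd.symm]
  by_cases ha : q = a
  · subst ha; simp only [if_neg hac, if_neg had, if_true]
  · by_cases hb : q = b
    · subst hb; simp only [if_neg hbc, if_neg hbd, if_neg ha, if_true]
    · simp only [if_neg ha, if_neg hb]

theorem cross_braid {a b c : P} (hab : a ≠ b) (hac : a ≠ c) (hbc : b ≠ c) (x : P → X) :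
    cross a b true (cross b c true (cross a b true x)) =
      cross b c true (cross a b true (cross b c true x)) := by
  funext q
  by_cases ha : q = a
  · subst ha; simp [cross, hab, hac, hac.symm, hbc.symm]
  · by_cases hb : q = b
    · subst hb; simp [cross, hab, hac, hab.symm, hac.symm, hbc.symm]
    · by_cases hc : q = c
      · subst hc
        simp only [cross, hab, hac, hbc, hab.symm, hac.symm, hbc.symm, if_true, if_false]
        rw [Shelf.self_distrib (x := x q) (y := x b) (z := x a)]
      · simp [cross, ha, hb, hc]

theorem cross_comp {P' : Type*} [DecidableEq P'] {e : P → P'} (he : Function.Injective e)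
    (a b : P) (s : Bool) (x : P' → X) : cross (e a) (e b) s x ∘ e = cross a b s (x ∘ e) := by
  funext q
  simp only [cross, Function.comp, he.eq_iff]

theorem cross_fix {a b : P} (s : Bool) {x : P → X} (h : x a = x b) : cross a b s x = x := by
  funext q
  unfold cross
  split_ifs with h1 h2 h3 h4 <;> simp [*]

theorem act_nil {n : ℕ} (x : Fin (n + 1) → X) : act ([] : Word n) x = x := rfl
theorem act_cons {n : ℕ} (c : Fin n × Bool) (w : Word n) (x : Fin (n + 1) → X) :
    act (c :: w) x = act w (cross c.1.castSucc c.1.succ c.2 x) := rfl
theorem act_append {n : ℕ} (u w : Word n) (x : Fin (n + 1) → X) :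
    act (u ++ w) x = act w (act u x) := List.foldl_append

theorem act_up {n : ℕ} (w : Word n) (x : Fin (n + 2) → X) :
    act (w.map fun c => (c.1.castSucc, c.2)) x ∘ Fin.castSucc = act w (x ∘ Fin.castSucc) ∧
      act (w.map fun c => (c.1.castSucc, c.2)) x (Fin.last _) = x (Fin.last _) := by
  induction w generalizing x with
  | nil => exact ⟨rfl, rfl⟩
  | cons c w ih =>
    rw [List.map_cons, act_cons, act_cons, (ih _).1, (ih _).2,
      ← cross_comp (Fin.castSucc_injective _)]
    exact ⟨rfl, cross_ne (Fin.castSucc_lt_last _).ne' (Fin.castSucc_lt_last c.1.succ).ne' _ _⟩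

theorem fix_stab {n : ℕ} (w : Word n) (s : Bool) (x : Fin (n + 2) → X) :
    act (w.map (fun c => (c.1.castSucc, c.2)) ++ [(Fin.last n, s)]) x = x ↔
      act w (x ∘ Fin.castSucc) = x ∘ Fin.castSucc ∧
        x (Fin.last _) = x (Fin.last n).castSucc := by
  obtain ⟨h1, h2⟩ := act_up w x
  rw [act_append, ← h1]
  generalize act (w.map fun c => (c.1.castSucc, c.2)) x = z at h2
  have hne : (Fin.last n).castSucc ≠ Fin.last (n + 1) := (Fin.castSucc_lt_last _).ne
  change cross (Fin.last n).castSucc (Fin.last (n + 1)) s z = x ↔ _
  constructor
  · intro h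
    have e1 := congrFun h (Fin.last n).castSucc
    have e2 := congrFun h (Fin.last (n + 1))
    rw [cross_left] at e1
    rw [cross_right hne] at e2
    have e3 : z (Fin.last n).castSucc = z (Fin.last (n + 1)) := by
      cases s
      · exact e2.trans h2.symm
      · exact (Rack.left_cancel (z (Fin.last (n + 1)))).1
          ((e2.trans h2.symm).trans Quandle.fix.symm)
    rw [cross_fix s e3] at h
    subst h
    exact ⟨rfl, e3.symm⟩
  · rintro ⟨h, e⟩
    have hz : z = x := by
      funext q
      induction q using Fin.lastCases with
      | last => exact h2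
      | cast q => exact congrFun h q
    rw [hz, cross_fix s e.symm]

theorem col_move {a b : Σ n, Word n} (h : Move a b) : col X a.2 = col X b.2 := by
  have key : ∀ {n : ℕ} {u w : Word n}, (∀ x : Fin (n + 1) → X, act u x = act w x) →
      col X u = col X w := fun h => by simp only [col, h]
  cases h with
  | cancel n u w i s =>
    refine key fun x => ?_
    simp only [act_append, act_cons, cross_cancel (Fin.castSucc_lt_succ (i := i)).ne]
  | far n u w i j s t h =>
    refine key fun x => ?_
    simp only [act_append, act_cons]
    rw [cross_far] <;> simp only [ne_eq, Fin.ext_iff, Fin.val_castSucc, Fin.val_succ] <;> omega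
  | braid n u w i j h =>
    refine key fun x => ?_
    have e : j.castSucc = i.succ := Fin.ext h.symm
    simp only [act_append, act_cons, e]
    rw [cross_braid] <;> simp only [ne_eq, Fin.ext_iff, Fin.val_castSucc, Fin.val_succ] <;> omega
  | conj n u w =>
    refine Nat.card_congr ⟨fun x => ⟨act u x.1, ?_⟩, fun x => ⟨act w x.1, ?_⟩,
      fun x => Subtype.ext ?_, fun x => Subtype.ext ?_⟩
    · rw [act_append, ← act_append u, x.2]
    · rw [act_append, ← act_append w, x.2]
    · exact (act_append _ _ _).symm.trans x.2
    · exact (act_append _ _ _).symm.trans x.2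
  | stab n w s =>
    refine Nat.card_congr ⟨fun x => ⟨Fin.snoc x.1 (x.1 (Fin.last n)), (fix_stab w s _).2 ?_⟩,
      fun x => ⟨x.1 ∘ Fin.castSucc, ((fix_stab w s _).1 x.2).1⟩,
      fun x => Subtype.ext ?_, fun x => Subtype.ext ?_⟩
    · rw [Fin.snoc_comp_castSucc, x.2, Fin.snoc_last, Fin.snoc_castSucc]
      exact ⟨rfl, rfl⟩
    · exact Fin.snoc_comp_castSucc
    · funext q
      induction q using Fin.lastCases with
      | last => simp only [Fin.snoc_last]; exact ((fix_stab w s _).1 x.2).2.symm
      | cast q => simp only [Fin.snoc_castSucc]; rfl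

end inv

/-- The number `h_X (K)` of colourings of the knot `K` by the quandle `X`. -/
noncomputable def hcol (X : Type*) [Quandle X] : Knot → ℕ :=
  Quot.lift (fun b => col X b.1.2) fun _ _ h => col_move h

theorem hcol_mk (X : Type*) [Quandle X] {n : ℕ} (w : Word n) (h : IsKnot w) :
    hcol X (Knot.mk w h) = col X w := rfl

end Pool.Agent.P.MP_cc10d1_gt
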