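import Mathlib

/-! Functions of finite order on a group with chosen generators; the lower central series of the
normal closure of the squares of the generators. -/

set_option autoImplicit false

open scoped commutatorElement

namespace Pool.Agent.P.MP_cc10d1_gt

variable {G I A : Type*} [Group G] [AddCommGroup A]

/-- All `n`-fold crossing change differences of `f` vanish. -/
def Z (s : I → G) : ℕ → (G → A) → Prop
  | 0, f => ∀ w, f w = 0
  | n + 1, f => ∀ a i, Z s n fun w => f (a * s i * w) - f (a * (s i)⁻¹ * w)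

/-- The normal closure of the squares of the generators. -/
def PN (s : I → G) : Subgroup G := Subgroup.normalClosure (Set.range fun i => s i ^ 2)

instance (s : I → G) : (PN s).Normal := Subgroup.normalClosure_normal

/-- The lower central series of `PN s`. -/
def gam (s : I → G) : ℕ → Subgroup G
  | 0 => PN s
  | n + 1 => ⁅gam s n, PN s⁆

instance gam_normal (s : I → G) : ∀ n, (gam s n).Normal
  | 0 => inferInstanceAs (PN s).Normal
  | n + 1 => by
    haveI := gam_normal s n
    exact inferInstanceAs (⁅gam s n, PN s⁆).Normal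

theorem gam_le (s : I → G) : ∀ n, gam s n ≤ PN s
  | 0 => le_rfl
  | _ + 1 => Subgroup.commutator_le_right _ _

theorem sq_mem_PN (s : I → G) (i : I) : s i ^ 2 ∈ PN s :=
  Subgroup.subset_normalClosure ⟨i, rfl⟩

variable {s : I → G}

theorem Z_congr {n : ℕ} {f g : G → A} (h : Z s n f) (e : ∀ w, g w = f w) : Z s n g :=
  (funext e : g = f) ▸ h

theorem Z_zero (n : ℕ) {f : G → A} (h : ∀ w, f w = 0) : Z s n f := by
  induction n generalizing f with
  | zero => exact h
  | succ n ih => exact fun a i => ih fun w => by rw [h, h, sub_zero]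

theorem Z_left {n : ℕ} {f : G → A} (h : Z s n f) (a : G) : Z s n fun w => f (a * w) := by
  cases n with
  | zero => exact fun w => h _
  | succ n => exact fun b i => Z_congr (h (a * b) i) fun w => by simp only [mul_assoc]

theorem Z_right {n : ℕ} {f : G → A} (h : Z s n f) (b : G) : Z s n fun w => f (w * b) := by
  induction n generalizing f with
  | zero => exact fun w => h _
  | succ n ih => exact fun a i => Z_congr (ih (h a i)) fun w => by simp only [mul_assoc]

theorem Z_sub {n : ℕ} {f g : G → A} (hf : Z s n f) (hg : Z s n g) :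
    Z s n fun w => f w - g w := by
  induction n generalizing f g with
  | zero => exact fun w => by simp only [hf w, hg w, sub_zero]
  | succ n ih => exact fun a i => Z_congr (ih (hf a i) (hg a i)) fun w => sub_sub_sub_comm _ _ _ _

theorem Z_neg {n : ℕ} {f : G → A} (hf : Z s n f) : Z s n fun w => - f w :=
  Z_congr (Z_sub (Z_zero n (f := fun _ => 0) fun _ => rfl) hf) fun _ => (zero_sub _).symm

theorem Z_add {n : ℕ} {f g : G → A} (hf : Z s n f) (hg : Z s n g) :
    Z s n fun w => f w + g w :=
  Z_congr (Z_sub hf (Z_neg hg)) fun _ => (sub_neg_eq_add _ _).symm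

theorem Z_succ {n : ℕ} {f : G → A} (h : Z s n f) : Z s (n + 1) f := fun a i =>
  Z_sub (Z_left h (a * s i)) (Z_left h (a * (s i)⁻¹))

theorem Z_rdiff {n : ℕ} {f : G → A} (h : Z s (n + 1) f) (i : I) (b : G) :
    Z s n fun w => f (w * s i * b) - f (w * (s i)⁻¹ * b) := by
  induction n generalizing f with
  | zero => exact fun w => h w i b
  | succ n ih =>
    exact fun a j => Z_congr (ih (h a j)) fun w => by simp only [mul_assoc]; abel

theorem PN_induction {p : G} (hp : p ∈ PN s) {φ : G → Prop} (h1 : φ 1)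
    (hs : ∀ g i, φ (g * s i ^ 2 * g⁻¹)) (hm : ∀ p q, φ p → φ q → φ (p * q))
    (hi : ∀ p, φ p → φ p⁻¹) : φ p := by
  induction hp using Subgroup.closure_induction with
  | mem x hx =>
    obtain ⟨_, ⟨i, rfl⟩, hc⟩ := Group.mem_conjugatesOfSet_iff.1 hx
    obtain ⟨g, rfl⟩ := isConj_iff.1 hc
    exact hs g i
  | one => exact h1
  | mul p q _ _ ihp ihq => exact hm p q ihp ihq
  | inv p _ ih => exact hi p ih

theorem Z_lPN {n : ℕ} {p : G} (hp : p ∈ PN s) :
    ∀ {f : G → A}, Z s (n + 1) f → Z s n fun w => f (p * w) - f w := by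
  refine PN_induction hp (φ := fun p => ∀ {f : G → A}, Z s (n + 1) f →
    Z s n fun w => f (p * w) - f w) ?_ ?_ ?_ ?_
  · exact fun _ => Z_zero n fun w => by rw [one_mul, sub_self]
  · intro g i f h
    exact Z_congr (Z_left (h (g * s i) i) g⁻¹) fun w => by simp [mul_assoc, pow_two]
  · intro p q ihp ihq f h
    exact Z_congr (Z_add (ihq (Z_left h p)) (ihp h)) fun w => by simp [mul_assoc]
  · intro p ih f h
    exact Z_congr (Z_neg (Z_left (ih h) p⁻¹)) fun w => by simp

theorem Z_rPN {n : ℕ} {p : G} (hp : p ∈ PN s) :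
    ∀ {f : G → A}, Z s (n + 1) f → Z s n fun w => f (w * p) - f w := by
  refine PN_induction hp (φ := fun p => ∀ {f : G → A}, Z s (n + 1) f →
    Z s n fun w => f (w * p) - f w) ?_ ?_ ?_ ?_
  · exact fun _ => Z_zero n fun w => by rw [mul_one, sub_self]
  · intro g i f h
    exact Z_congr (Z_right (Z_rdiff h i (s i * g⁻¹)) g) fun w => by simp [mul_assoc, pow_two]
  · intro p q ihp ihq f h
    exact Z_congr (Z_add (ihp (Z_right h q)) (ihq h)) fun w => by simp [mul_assoc]
  · intro p ih f h
    exact Z_congr (Z_neg (Z_right (ih h) p⁻¹)) fun w => by simp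

variable (s A) in
/-- The elements that are invisible for all functions of order `< n`. -/
def Dn (n : ℕ) : Subgroup G where
  carrier := {d | ∀ f : G → A, Z s n f → ∀ a w, f (a * d * w) = f (a * w)}
  one_mem' := fun _ _ a w => by rw [mul_one]
  mul_mem' := fun {d e} hd he f h a w => by
    rw [← mul_assoc, he f h, hd f h]
  inv_mem' := fun {d} hd f h a w => by
    rw [← hd f h (a * d⁻¹) w]; simp

theorem gam_le_Dn (n : ℕ) : gam s n ≤ Dn A s (n + 1) := by
  induction n with
  | zero =>
    intro p hp f h a w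
    have := Z_lPN (n := 0) hp (Z_left h a) w
    rwa [sub_eq_zero, ← mul_assoc] at this
  | succ n ih =>
    refine Subgroup.commutator_le.2 fun d hd p hp f h a w => ?_
    have e1 := ih hd _ (Z_lPN hp (Z_left h a)) 1 (d⁻¹ * p⁻¹ * w)
    have e2 := ih hd _ (Z_rPN hp (Z_right h (d⁻¹ * p⁻¹ * w))) a 1
    simp only [one_mul, mul_one, mul_assoc, mul_inv_cancel_left] at e1 e2
    simp only [commutatorElement_def, mul_assoc]
    exact sub_left_inj.1 (e2.trans e1.symm)

/-- A function of order `≤ n` does not see the term `gam s n` of the lower central series. -/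
theorem Z_gam {n : ℕ} {f : G → A} (h : Z s (n + 1) f) {c : G} (hc : c ∈ gam s n) (a w : G) :
    f (a * c * w) = f (a * w) := gam_le_Dn n hc f h a w

/-- If every generator has a conjugate by an element of `PN s` in `L`, then `L` maps onto all
the quotients by the lower central series. -/
theorem sup_gam {L : Subgroup G} (hs : Subgroup.closure (Set.range s) = ⊤)
    (h : ∀ i, ∃ p ∈ PN s, p * s i * p⁻¹ ∈ L) (n : ℕ) : L ⊔ gam s n = ⊤ := by
  have h0 : L ⊔ PN s = ⊤ := by
    rw [eq_top_iff, ← hs, Subgroup.closure_le]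
    rintro _ ⟨i, rfl⟩
    obtain ⟨p, hp, hl⟩ := h i
    have : s i = p⁻¹ * (p * s i * p⁻¹) * p := by group
    rw [SetLike.mem_coe, this]
    exact mul_mem (mul_mem (Subgroup.mem_sup_right (inv_mem hp)) (Subgroup.mem_sup_left hl))
      (Subgroup.mem_sup_right hp)
  induction n with
  | zero => exact h0
  | succ n ih =>
    rw [eq_top_iff, ← h0]
    refine sup_le le_sup_left fun q hq => ?_
    refine PN_induction hq (φ := fun q => q ∈ L ⊔ gam s (n + 1)) (one_mem _) (fun g i => ?_)
      (fun _ _ => mul_mem) fun _ => inv_mem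
    obtain ⟨p, hp, hl⟩ := h i
    obtain ⟨l, hl', d, hd, e⟩ :=
      Subgroup.mem_sup_of_normal_right.1 (ih ▸ Subgroup.mem_top (g * p⁻¹))
    have h2 : p * s i ^ 2 * p⁻¹ ∈ PN s := Subgroup.Normal.conj_mem inferInstance _ (sq_mem_PN s i) p
    have h3 : p * s i ^ 2 * p⁻¹ ∈ L := by
      have := mul_mem hl hl
      rwa [show p * s i * p⁻¹ * (p * s i * p⁻¹) = p * s i ^ 2 * p⁻¹ by
        simp [pow_two, mul_assoc]] at this
    have e2 : g * s i ^ 2 * g⁻¹ = l * ⁅d, p * s i ^ 2 * p⁻¹⁆ * (p * s i ^ 2 * p⁻¹) * l⁻¹ := by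
      have : g = l * d * p := by rw [e]; group
      rw [this, commutatorElement_def]; group
    rw [e2]
    exact mul_mem (mul_mem (mul_mem (Subgroup.mem_sup_left hl')
      (Subgroup.mem_sup_right (Subgroup.commutator_mem_commutator hd h2)))
      (Subgroup.mem_sup_left h3)) (Subgroup.mem_sup_left (inv_mem hl'))

end Pool.Agent.P.MP_cc10d1_gt
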