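import Pool.Agent.P.MP_cc10d1_gt.Defs
import Pool.Agent.P.MP_cc10d1_gt.Filt

/-! The free group on a family of letters: invariants, colourings and permutations. -/

set_option autoImplicit false

open Quandles

namespace Pool.Agent.P.MP_cc10d1_gt

variable {A : Type*} [AddCommGroup A] {I : Type*} {m : ℕ}

theorem perm_nil : perm ([] : Word m) = 1 := rfl
theorem perm_cons (c : Fin m × Bool) (w : Word m) :
    perm (c :: w) = Equiv.swap c.1.castSucc c.1.succ * perm w := by
  simp [perm]
theorem perm_append (u w : Word m) : perm (u ++ w) = perm u * perm w := by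
  simp [perm]
theorem isKnot_congr {u w : Word m} (h : perm u = perm w) : IsKnot u ↔ IsKnot w := by
  simp only [IsKnot, h]

theorem mk_move {n n' : ℕ} {u : Word n} {w : Word n'} (hu : IsKnot u) (hw : IsKnot w)
    (h : Move ⟨n, u⟩ ⟨n', w⟩) : Knot.mk u hu = Knot.mk w hw := Quot.sound h

theorem Knot.ind {φ : Knot → Prop} (h : ∀ (n : ℕ) (w : Word n) (hw : IsKnot w), φ (Knot.mk w hw))
    (K : Knot) : φ K := Quot.ind (fun b => h b.1.1 b.1.2 b.2) K

theorem val_mk (v : Knot → A) {w : Word m} (h : IsKnot w) : val v m w = v (Knot.mk w h) :=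
  dif_pos h
theorem val_not (v : Knot → A) {w : Word m} (h : ¬ IsKnot w) : val v m w = 0 := dif_neg h

theorem val_move (v : Knot → A) {n n' : ℕ} {u : Word n} {w : Word n'} (e : IsKnot u ↔ IsKnot w)
    (h : Move ⟨n, u⟩ ⟨n', w⟩) : val v n u = val v n' w := by
  by_cases hu : IsKnot u
  · rw [val_mk v hu, val_mk v (e.1 hu), mk_move hu (e.1 hu) h]
  · rw [val_not v hu, val_not v fun hw => hu (e.2 hw)]

theorem val_cancel (v : Knot → A) (u w : Word m) (i : Fin m) (s : Bool) :
    val v m (u ++ (i, s) :: (i, !s) :: w) = val v m (u ++ w) :=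
  val_move v (isKnot_congr (by simp [perm_append, perm_cons])) (Move.cancel m u w i s)

theorem act_cancel {X : Type*} [Quandle X] (u w : Word m) (i : Fin m) (s : Bool)
    (x : Fin (m + 1) → X) : act (u ++ (i, s) :: (i, !s) :: w) x = act (u ++ w) x := by
  simp only [act_append, act_cons, cross_cancel (Fin.castSucc_lt_succ (i := i)).ne]

/-! ### Singular words -/

theorem ext_sub (f g : Word m → A) (w : SWord m) :
    ext (fun u => f u - g u) w = ext f w - ext g w := by
  induction w generalizing f g with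
  | nil => rfl
  | cons c w ih =>
    obtain ⟨i, _ | s⟩ := c
    · simp only [ext, ih]; exact sub_sub_sub_comm _ _ _ _
    · simp only [ext, ih]

theorem ext_some (f : Word m → A) (u : Word m) (w : SWord m) :
    ext f (u.map (fun c => (c.1, some c.2)) ++ w) = ext (fun z => f (u ++ z)) w := by
  induction u generalizing f with
  | nil => rfl
  | cons c u ih => simp only [List.map_cons, List.cons_append, ext, ih]

/-- The extension of `F` vanishes on singular words with `k` double points. -/
def ZW (k : ℕ) (F : Word m → A) : Prop :=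
  ∀ w : SWord m, (w.filter fun c => c.2 = none).length = k → ext F w = 0

theorem count_some (u : Word m) (w : SWord m) :
    ((u.map (fun c => (c.1, some c.2)) ++ w).filter fun c => c.2 = none).length =
      (w.filter fun c => c.2 = none).length := by
  induction u with
  | nil => rfl
  | cons c u ih => simpa using ih

theorem ZW.left {k : ℕ} {F : Word m → A} (h : ZW k F) (u : Word m) :
    ZW k fun z => F (u ++ z) := fun w hw => by
  rw [← ext_some]; exact h _ ((count_some u w).trans hw)

theorem ZW.zero {F : Word m → A} (h : ZW 0 F) (u : Word m) : F u = 0 := by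
  simpa [ext] using h.left u [] rfl

theorem ZW.diff {k : ℕ} {F : Word m → A} (h : ZW (k + 1) F) (i : Fin m) :
    ZW k fun z => F ((i, true) :: z) - F ((i, false) :: z) := fun w hw => by
  rw [ext_sub]
  exact h ((i, none) :: w) (by simpa using hw)

/-! ### The free group -/

/-- The braid word of a word in the letters `ι`. -/
def wd (ι : I → Fin m) (w : List (I × Bool)) : Word m := w.map fun c => (ι c.1, c.2)

theorem wd_append (ι : I → Fin m) (u w : List (I × Bool)) : wd ι (u ++ w) = wd ι u ++ wd ι w :=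
  List.map_append
theorem wd_cons (ι : I → Fin m) (c : I × Bool) (w : List (I × Bool)) :
    wd ι (c :: w) = (ι c.1, c.2) :: wd ι w := rfl

theorem of_eq (i : I) : FreeGroup.of i = FreeGroup.mk [(i, true)] := rfl
theorem of_inv_eq (i : I) : (FreeGroup.of i)⁻¹ = FreeGroup.mk [(i, false)] := rfl

theorem exists_mk (g : FreeGroup I) : ∃ w, FreeGroup.mk w = g := Quot.exists_rep g

theorem Z_of_ZW (ι : I → Fin m) {k : ℕ} {f : FreeGroup I → A} {F : Word m → A}
    (e : ∀ w, f (FreeGroup.mk w) = F (wd ι w)) (h : ZW k F) : Z FreeGroup.of k f := by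
  induction k generalizing f F with
  | zero =>
    intro g
    obtain ⟨w, rfl⟩ := exists_mk g
    rw [e, h.zero]
  | succ k ih =>
    intro a i
    obtain ⟨u, rfl⟩ := exists_mk a
    refine ih (fun w => ?_) ((h.left (wd ι u)).diff (ι i))
    simp only [of_inv_eq]
    simp only [of_eq, FreeGroup.mul_mk, e, wd_append, wd_cons, List.append_assoc]
    rfl

/-- The invariant `v` of the closure of `b` followed by a word in the letters `ι`. -/
noncomputable def fv (v : Knot → A) (b : Word m) (ι : I → Fin m) : FreeGroup I → A :=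
  Quot.lift (fun w => val v m (b ++ wd ι w)) fun _ _ h => by
    cases h
    simp only [wd_append, wd_cons, ← List.append_assoc, val_cancel]

theorem fv_mk (v : Knot → A) (b : Word m) (ι : I → Fin m) (w : List (I × Bool)) :
    fv v b ι (FreeGroup.mk w) = val v m (b ++ wd ι w) := rfl

theorem Z_fv {v : Knot → A} {d : ℕ} (h : HasOrder v d) (b : Word m) (ι : I → Fin m) :
    Z FreeGroup.of (d + 1) (fv v b ι) :=
  Z_of_ZW ι (F := fun z => val v m (b ++ z)) (fv_mk v b ι) (ZW.left (h m) b)

/-- The permutation of an element of the free group. -/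
def fp (ι : I → Fin m) : FreeGroup I →* Equiv.Perm (Fin (m + 1)) :=
  FreeGroup.lift fun i => Equiv.swap (ι i).castSucc (ι i).succ

theorem fp_mk (ι : I → Fin m) (w : List (I × Bool)) : fp ι (FreeGroup.mk w) = perm (wd ι w) := by
  simp [fp, perm, wd, FreeGroup.lift_mk, Function.comp_def]

theorem PN_le_ker (ι : I → Fin m) : PN FreeGroup.of ≤ (fp ι).ker := by
  refine Subgroup.normalClosure_le_normal ?_
  rintro _ ⟨i, rfl⟩
  simp [fp, pow_two]

variable {X : Type*} [Quandle X]

/-- The right action of the free group on the tuples of colours. -/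
def fa (ι : I → Fin m) (g : FreeGroup I) (x : Fin (m + 1) → X) : Fin (m + 1) → X :=
  Quot.lift (fun w => act (wd ι w) x) (fun _ _ h => by
    cases h
    simp only [wd_append, wd_cons, act_cancel]) g

theorem fa_mk (ι : I → Fin m) (w : List (I × Bool)) (x : Fin (m + 1) → X) :
    fa ι (FreeGroup.mk w) x = act (wd ι w) x := rfl

theorem fa_one (ι : I → Fin m) (x : Fin (m + 1) → X) : fa ι 1 x = x := rfl

theorem fa_mul (ι : I → Fin m) (g h : FreeGroup I) (x : Fin (m + 1) → X) :
    fa ι (g * h) x = fa ι h (fa ι g x) := by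
  obtain ⟨u, rfl⟩ := exists_mk g
  obtain ⟨w, rfl⟩ := exists_mk h
  simp only [FreeGroup.mul_mk, fa_mk, wd_append, act_append]

theorem fa_letter (ι : I → Fin m) (i : I) (s : Bool) (x : Fin (m + 1) → X) :
    fa ι (FreeGroup.mk [(i, s)]) x = cross (ι i).castSucc (ι i).succ s x := rfl

/-- The stabiliser of a tuple. -/
def stabL (ι : I → Fin m) (T : Fin (m + 1) → X) : Subgroup (FreeGroup I) where
  carrier := {g | fa ι g T = T}
  one_mem' := fa_one ι T
  mul_mem' := fun {g h} (hg : fa ι g T = T) (hh : fa ι h T = T) => by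
    change fa ι (g * h) T = T
    rw [fa_mul, hg, hh]
  inv_mem' := fun {g} (hg : fa ι g T = T) => by
    change fa ι g⁻¹ T = T
    conv_lhs => rw [← hg]
    rw [← fa_mul, mul_inv_cancel, fa_one]

theorem mem_stabL (ι : I → Fin m) (T : Fin (m + 1) → X) (g : FreeGroup I) :
    g ∈ stabL ι T ↔ fa ι g T = T := Iff.rfl

theorem conj_mem_stabL (ι : I → Fin m) {T : Fin (m + 1) → X} {p : FreeGroup I} {i : I}
    (h : fa ι p T (ι i).castSucc = fa ι p T (ι i).succ) :
    p * FreeGroup.of i * p⁻¹ ∈ stabL ι T := by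
  rw [mem_stabL, fa_mul, fa_mul, of_eq, fa_letter, cross_fix _ h, ← fa_mul, mul_inv_cancel, fa_one]

/-- Every word can be replaced by one that fixes `T` and has the same permutation and the same
invariants of order `≤ d`. -/
theorem exists_fix (ι : I → Fin m) {T : Fin (m + 1) → X}
    (h : ∀ i, ∃ p ∈ PN FreeGroup.of, fa ι p T (ι i).castSucc = fa ι p T (ι i).succ) (d : ℕ)
    (t : List (I × Bool)) : ∃ l : List (I × Bool), act (wd ι l) T = T ∧
      ∃ c ∈ gam FreeGroup.of d, FreeGroup.mk t = FreeGroup.mk l * c := by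
  have h1 := sup_gam (L := stabL ι T) (FreeGroup.closure_range_of I)
    (fun i => (h i).imp fun p hp => ⟨hp.1, conj_mem_stabL ι hp.2⟩) d
  obtain ⟨g, hg, c, hc, e⟩ :=
    Subgroup.mem_sup_of_normal_right.1 (h1 ▸ Subgroup.mem_top (FreeGroup.mk t))
  obtain ⟨l, rfl⟩ := exists_mk g
  exact ⟨l, hg, c, hc, e.symm⟩

theorem same_of_gam (ι : I → Fin m) {d : ℕ} {t l : List (I × Bool)} {c : FreeGroup I}
    (hc : c ∈ gam FreeGroup.of d) (e : FreeGroup.mk t = FreeGroup.mk l * c) (b : Word m) :
    perm (b ++ wd ι t) = perm (b ++ wd ι l) ∧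
      ∀ v : Knot → A, HasOrder v d → val v m (b ++ wd ι t) = val v m (b ++ wd ι l) := by
  constructor
  · rw [perm_append, perm_append, ← fp_mk, ← fp_mk, e, map_mul,
      (MonoidHom.mem_ker.1 (PN_le_ker ι (gam_le _ _ hc))), mul_one]
  · intro v hv
    have := Z_gam (Z_fv hv b ι) hc (FreeGroup.mk l) 1
    rwa [mul_one, mul_one, ← e, fv_mk, fv_mk] at this

end Pool.Agent.P.MP_cc10d1_gt
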