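import Pool.Agent.P.MP_cc10d1_gt.Free

/-! More strands: embeddings of braid words and repeated stabilisation. -/

set_option autoImplicit false

open Quandles

namespace Pool.Agent.P.MP_cc10d1_gt

section emb
variable {n m : ℕ} {ι : Fin n → Fin m} {e : Fin (n + 1) → Fin (m + 1)}

theorem perm_wd (he : Function.Injective e) (h1 : ∀ i, (ι i).castSucc = e i.castSucc)
    (h2 : ∀ i, (ι i).succ = e i.succ) (w : Word n) :
    (∀ j, perm (wd ι w) (e j) = e (perm w j)) ∧ ∀ q, (∀ j, q ≠ e j) → perm (wd ι w) q = q := by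
  induction w with
  | nil => exact ⟨fun _ => rfl, fun _ _ => rfl⟩
  | cons c w ih =>
    rw [wd_cons, perm_cons, perm_cons]
    refine ⟨fun j => ?_, fun q hq => ?_⟩
    · simp only [Equiv.Perm.mul_apply, ih.1, h1, h2, he.swap_apply]
    · simp only [Equiv.Perm.mul_apply, ih.2 q hq, h1, h2]
      exact Equiv.swap_apply_of_ne_of_ne (hq _) (hq _)

theorem act_wd {X : Type*} [Quandle X] (he : Function.Injective e)
    (h1 : ∀ i, (ι i).castSucc = e i.castSucc) (h2 : ∀ i, (ι i).succ = e i.succ) (w : Word n)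
    (x : Fin (m + 1) → X) : act (wd ι w) x ∘ e = act w (x ∘ e) ∧
      ∀ q, (∀ j, q ≠ e j) → act (wd ι w) x q = x q := by
  induction w generalizing x with
  | nil => exact ⟨rfl, fun _ _ => rfl⟩
  | cons c w ih =>
    rw [wd_cons, act_cons, act_cons, (ih _).1, ← cross_comp he, h1, h2]
    exact ⟨rfl, fun q hq => ((ih _).2 q hq).trans (cross_ne (hq _) (hq _) _ _)⟩

theorem act_wd_fix {X : Type*} [Quandle X] (he : Function.Injective e)
    (h1 : ∀ i, (ι i).castSucc = e i.castSucc) (h2 : ∀ i, (ι i).succ = e i.succ) {w : Word n}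
    {x : Fin (m + 1) → X} (h : act w (x ∘ e) = x ∘ e) : act (wd ι w) x = x := by
  funext q
  by_cases hq : ∃ j, q = e j
  · obtain ⟨j, rfl⟩ := hq
    exact congrFun ((act_wd he h1 h2 w x).1.trans h) j
  · exact (act_wd he h1 h2 w x).2 q fun j hj => hq ⟨j, hj⟩

end emb

theorem act_wd_const {X I : Type*} [Quandle X] {m : ℕ} {ι : I → Fin m} {x : Fin (m + 1) → X}
    (h : ∀ i, x (ι i).castSucc = x (ι i).succ) (w : List (I × Bool)) : act (wd ι w) x = x := by
  induction w with
  | nil => rfl
  | cons c w ih => rw [wd_cons, act_cons, cross_fix _ (h _), ih]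

theorem IsKnot.induction {n : ℕ} {w : Word n} (h : IsKnot w) {φ : Fin (n + 1) → Prop}
    (hφ : ∀ j, φ j → φ (perm w j)) {a : Fin (n + 1)} (ha : φ a) (b : Fin (n + 1)) : φ b := by
  obtain ⟨k, rfl⟩ := (h a b).exists_nat_pow_eq
  induction k with
  | zero => exact ha
  | succ k ih => rw [pow_succ']; exact hφ _ ih

theorem isKnot_stab {n : ℕ} {w : Word n} (h : IsKnot w) (s : Bool) :
    IsKnot (wd Fin.castSucc w ++ [(Fin.last n, s)]) := by
  obtain ⟨h1, h2⟩ := perm_wd (ι := Fin.castSucc) (e := Fin.castSucc) (Fin.castSucc_injective _)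
    (fun _ => rfl) (fun _ => rfl) w
  have hl : perm (wd Fin.castSucc w) (Fin.last (n + 1)) = Fin.last (n + 1) :=
    h2 _ fun j => (Fin.castSucc_lt_last j).ne'
  set σ := perm (wd Fin.castSucc w ++ [(Fin.last n, s)]) with hσ
  have e : σ = perm (wd Fin.castSucc w) * Equiv.swap (Fin.last n).castSucc (Fin.last (n + 1)) := by
    rw [hσ, perm_append, perm_cons, perm_nil, mul_one]; rfl
  have e1 : σ (Fin.last n).castSucc = Fin.last (n + 1) := by
    rw [e, Equiv.Perm.mul_apply, Equiv.swap_apply_left, hl]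
  have e2 : σ (Fin.last (n + 1)) = (perm w (Fin.last n)).castSucc := by
    rw [e, Equiv.Perm.mul_apply, Equiv.swap_apply_right, h1]
  have key : ∀ j : Fin (n + 1), σ.SameCycle (Fin.last n).castSucc j.castSucc := by
    refine h.induction (φ := fun j => σ.SameCycle (Fin.last n).castSucc j.castSucc)
      (fun j hj => ?_) (a := Fin.last n) Equiv.Perm.SameCycle.rfl
    by_cases hj' : j = Fin.last n
    · rw [hj', ← e2, ← e1]
      exact Equiv.Perm.SameCycle.rfl.apply_right.apply_right
    · have e3 : σ j.castSucc = (perm w j).castSucc := by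
        rw [e, Equiv.Perm.mul_apply, Equiv.swap_apply_of_ne_of_ne
          (fun hh => hj' (Fin.castSucc_injective _ hh)) (Fin.castSucc_lt_last j).ne, h1]
      rw [← e3]
      exact hj.apply_right
  have key2 : ∀ q, σ.SameCycle (Fin.last n).castSucc q := fun q => by
    induction q using Fin.lastCases with
    | last => rw [← e1]; exact Equiv.Perm.SameCycle.rfl.apply_right
    | cast j => exact key j
  exact fun a b => (key2 a).symm.trans (key2 b)

theorem mk_stab {n : ℕ} {w : Word n} (h : IsKnot w) (s : Bool) :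
    Knot.mk (wd Fin.castSucc w ++ [(Fin.last n, s)]) (isKnot_stab h s) = Knot.mk w h :=
  (mk_move h (isKnot_stab h s) (Move.stab n w s)).symm

/-- Repeated stabilisation: `N` more strands and a tail in the new letters. -/
theorem exists_tail {n : ℕ} {b : Word n} (hb : IsKnot b) (N : ℕ) :
    ∃ (t : Word N) (hk : IsKnot (wd (Fin.castAdd N) b ++ wd (Fin.natAdd n) t)),
      Knot.mk _ hk = Knot.mk b hb := by
  induction N with
  | zero =>
    have e : wd (Fin.castAdd 0) b ++ wd (Fin.natAdd n) ([] : Word 0) = b :=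
      (List.append_nil _).trans (List.map_id' b)
    exact ⟨[], e.symm ▸ hb, by congr 1⟩
  | succ N ih =>
    obtain ⟨t, hk, e⟩ := ih
    have e2 : wd (Fin.castAdd (N + 1)) b ++
        wd (Fin.natAdd n) (wd Fin.castSucc t ++ [(Fin.last N, true)]) =
        wd Fin.castSucc (wd (Fin.castAdd N) b ++ wd (Fin.natAdd n) t) ++
          [(Fin.last (n + N), true)] := by
      simp only [wd, List.map_append, List.map_map, List.append_assoc]
      rfl
    refine ⟨wd Fin.castSucc t ++ [(Fin.last N, true)], e2 ▸ isKnot_stab hk true, ?_⟩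
    rw [← e, ← mk_stab hk true]
    congr 1

end Pool.Agent.P.MP_cc10d1_gt
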